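import Pool.Agent.R963.Bes.Top

/-!
# MP_c1c973_an, Q1: a Besicovitch cylindrical transformation all of whose orbits are dense or
discrete

The example lives over the 2-adic odometer: `X = ℤ_[2]`, `α = 1`.
-/

namespace Pool.Agent.Results.MP_c1c973_an.AllDenseOrDiscrete

open Topology

/-- The full `ℤ`-orbit of `z` under the homeomorphism `T`. -/
def orbit {Y : Type} [TopologicalSpace Y] (T : Y ≃ₜ Y) (z : Y) : Set Y :=
  Set.range fun n : ℤ => (T ^ n) z

/-- A set is discrete if each of its points has a neighbourhood meeting the set only in that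
point. -/
def IsDiscreteSet {Y : Type} [TopologicalSpace Y] (S : Set Y) : Prop :=
  ∀ w ∈ S, ∃ U ∈ 𝓝 w, U ∩ S = {w}

/-- There are a compact metrizable abelian topological group `X`, an element `α` whose rotation
`x ↦ x + α` is minimal, and a continuous `φ : X → ℝ` such that the cylindrical transformation
`T (x, t) = (x + α, t + φ x)` of `X × ℝ` has a dense orbit, has a discrete orbit, and each of its
orbits is dense or discrete. This is a positive answer to Q1. -/
theorem result : ∃ (X : Type) (_ : MetricSpace X) (_ : AddCommGroup X)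
    (_ : IsTopologicalAddGroup X) (_ : CompactSpace X) (α : X) (φ : C(X, ℝ))
    (T : (X × ℝ) ≃ₜ (X × ℝ)), (∀ (x : X) (t : ℝ), T (x, t) = (x + α, t + φ x)) ∧
    (∀ x : X, Dense (Set.range fun n : ℤ => x + n • α)) ∧
    (∃ z : X × ℝ, Dense (orbit T z)) ∧
    (∃ z : X × ℝ, IsDiscreteSet (orbit T z)) ∧
    ∀ z : X × ℝ, Dense (orbit T z) ∨ IsDiscreteSet (orbit T z) := by
  obtain ⟨X, i1, i2, i3, i4, α, φ, h1, h2, h3, h4⟩ := Pool.Agent.R963.Bes.example_exists
  exact ⟨X, i1, i2, i3, i4, α, φ, Pool.Agent.R963.Bes.cyl α φ, fun x t => rfl, h1, h2, h3, h4⟩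

end Pool.Agent.Results.MP_c1c973_an.AllDenseOrDiscrete
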